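import Pool.Agent.N801.CF.GsSmall

/-!
# Cubic fourfolds whose Fano variety of lines is a Hilbert square
-/

set_option autoImplicit false

namespace Pool.Agent.Results.MP_bd567f_ag.RankFive

open Pool.Agent.Y95.Q Pool.Agent.N801.CF

/-- **Fano varieties of lines which are Hilbert squares.** Let `d` satisfy the condition (**) and let
`X` be a smooth cubic fourfold in `C_d`. Suppose that the group of Hodge classes in `H^4(X, ℤ)` has
rank at least `5`, or has rank `4` and contains a class `v` with `disc v = 2 a ^ 2`, `a ≠ 0`, or that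
`X` is also in `C_8` (contains a plane) or in `C_18`. Then `X` is in `C_d'` for a number
`d' = (2 n ^ 2 + 2 n + 2) / a ^ 2`, that is, `F_X` is birational to `S^[2]` for a K3 surface `S`. -/
theorem result (X : CubicFourfold) (H : H4 X) (hH : H.IsCohomology) (d : ℤ) (hd : Admissible d)
    (hX : InHassettDivisor H d)
    (hr : 5 ≤ H.rank ∨ (4 ≤ H.rank ∧ ∃ (v : Fin 23 → ℤ) (a : ℤ),
      H.IsHodge v ∧ a ≠ 0 ∧ H.disc v = 2 * a ^ 2) ∨ InHassettDivisor H 8 ∨
      InHassettDivisor H 18) : HilbertSquare H := by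
  obtain ⟨v, hv, hsat, rfl⟩ := hX
  have hK : H.HasK3 := ⟨v, hv, hsat, hd⟩
  rcases hr with hr | hr | ⟨P, hP, -, h8⟩ | ⟨v0, hv0, -, h18⟩
  · exact (hilbertSquare_iff hH (Or.inl hr)).2 hK
  · exact (hilbertSquare_iff hH (Or.inr hr)).2 hK
  · exact (eight_iff hH hP h8).1.2 hK
  · exact (eighteen_iff hH hv0 h18).1.2 hK

end Pool.Agent.Results.MP_bd567f_ag.RankFive
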